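import Pool.Agent.helper37.CZ.Spec

set_option autoImplicit false

open scoped Matrix Topology ComplexConjugate
open Filter

namespace Pool.Agent.CZ

lemma LC3_ent_lt {N k : ℕ} (W : Matrix (Fin N × Fin k) (Fin N × Fin k) ℂ) (p q : ℕ × Fin k)
    (hp : p.1 < N) (hq : q.1 < N) : ent W p q = W (⟨p.1, hp⟩, p.2) (⟨q.1, hq⟩, q.2) := by
  unfold ent
  rw [dif_pos ⟨hp, hq⟩]

lemma LC3_mul {N k : ℕ} (W W' : Matrix (Fin N × Fin k) (Fin N × Fin k) ℂ) (p q : ℕ × Fin k)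
    (hp : p.1 < N) (hq : q.1 < N) :
    ent (W * W') p q = ∑ a ∈ Finset.range N, ∑ b : Fin k, ent W p (a, b) * ent W' (a, b) q := by
  rw [LC3_ent_lt _ p q hp hq, Matrix.mul_apply, Fintype.sum_prod_type, Finset.sum_range]
  refine Finset.sum_congr rfl fun a _ => Finset.sum_congr rfl fun b _ => ?_
  rw [LC3_ent_lt W p (↑a, b) hp a.2, LC3_ent_lt W' (↑a, b) q a.2 hq]

lemma LC3_aN {X : Type} {k : ℕ} (E : X → ℤ × Fin k → ℤ × Fin k → ℂ) (x : X) (N : ℕ)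
    (p q : ℕ × Fin k) (hp : p.1 < N) (hq : q.1 < N) :
    ent (aN E x N) p q = E x ((p.1 : ℤ), p.2) ((q.1 : ℤ), q.2) := by
  rw [LC3_ent_lt _ p q hp hq]
  rfl

lemma LC3_sh {X : Type} [TopologicalSpace X] (α : X ≃ₜ X) (k : ℕ) (E : X → ℤ × Fin k → ℤ × Fin k → ℂ)
    (h : Ker α k E) (x : X) (s : ℕ) (p q : ℤ × Fin k) :
    E ((α ^ (s : ℤ)) x) p q = E x (p.1 + s, p.2) (q.1 + s, q.2) := by
  induction s generalizing p q with
  | zero => simp
  | succ s ih =>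
    have h1 : (α ^ ((s + 1 : ℕ) : ℤ)) x = α ((α ^ (s : ℤ)) x) := by
      rw [zpow_natCast, zpow_natCast, pow_succ']
      rfl
    rw [h1, h.tr, ih]
    push_cast
    simp only [add_assoc, add_comm (1 : ℤ)]

lemma LC3_one {N k : ℕ} (p q : ℕ × Fin k) (hp : p.1 < N) (hq : q.1 < N) :
    ent (1 : Matrix (Fin N × Fin k) (Fin N × Fin k) ℂ) p q = if p = q then 1 else 0 := by
  rw [LC3_ent_lt _ p q hp hq, Matrix.one_apply]
  by_cases h : p = q
  · subst h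
    rw [if_pos rfl, if_pos rfl]
  · rw [if_neg h, if_neg]
    intro h2
    apply h
    rw [Prod.mk.injEq, Fin.mk.injEq] at h2
    exact Prod.ext h2.1 h2.2

theorem LC3 (h1 : LC1_stmt) : LC3_stmt := by
  intro X _ α k E ρ K hE hR x M N j p q hMN hp hq
  have hρ0 := hR.1
  have hρ1 := hR.2.1
  have hK1 := hR.2.2.1
  have hK0 : 0 < K := by linarith
  have hrow := hR.2.2.2.2
  obtain ⟨s, hs⟩ : ∃ s : ℕ, s = N - M := ⟨_, rfl⟩
  have hN : N = s + M := by omega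
  rw [← hs]
  induction j generalizing p with
  | zero =>
    rw [pow_zero, pow_zero, LC3_one _ _ (by show s + p.1 < N; omega) (by show s + q.1 < N; omega),
      LC3_one p q hp hq]
    have : ((s + p.1, p.2) = ((s + q.1, q.2) : ℕ × Fin k)) ↔ p = q := by
      constructor
      · intro h
        rw [Prod.mk.injEq] at h
        exact Prod.ext (by omega) h.2
      · rintro rfl
        rfl
    by_cases h : p = q
    · rw [if_pos (this.2 h), if_pos h, sub_self, norm_zero]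
      positivity
    · rw [if_neg (fun h' => h (this.1 h')), if_neg h, sub_self, norm_zero]
      positivity
  | succ j ih =>
    have hP : s + p.1 < N := by omega
    have hQ : s + q.1 < N := by omega
    rw [pow_succ' (aN E x N) j, pow_succ' (aN E ((α ^ (s : ℤ)) x) M) j,
      LC3_mul _ _ (s + p.1, p.2) (s + q.1, q.2) hP hQ, LC3_mul _ _ p q hp hq, hN,
      Finset.sum_range_add, ← hN, add_sub_assoc, ← Finset.sum_sub_distrib]
    -- the function of all terms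
    have hB : ∀ a ∈ Finset.range s, ∀ b : Fin k,
        ‖ent (aN E x N) (s + p.1, p.2) (a, b) * ent (aN E x N ^ j) (a, b) (s + q.1, q.2)‖ ≤
        (‖E x ((s + p.1 : ℕ), p.2) ((a : ℤ), b)‖ *
          (ρ⁻¹) ^ ((((s + p.1 : ℕ) : ℤ)) - (a : ℤ)).natAbs) * (K ^ j * ρ ^ ((p.1 + 1) + (q.1 + 1))) := by
      intro a ha b
      rw [Finset.mem_range] at ha
      rw [norm_mul, LC3_aN E x N (s + p.1, p.2) (a, b) hP (by show a < N; omega)]
      have g1 := (h1 X α k E ρ K hE hR x N j (a, b) (s + q.1, q.2) (by show a < N; omega) hQ).2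
      have g2 : q.1 + 1 ≤ nd a (s + q.1) := by
        unfold nd
        omega
      have g3 : p.1 + 1 ≤ ((((s + p.1 : ℕ) : ℤ)) - (a : ℤ)).natAbs := by omega
      have g4 : ρ ^ (nd a (s + q.1)) ≤ ρ ^ (q.1 + 1) := pow_le_pow_of_le_one hρ0.le hρ1.le g2
      have g5 : 1 ≤ (ρ⁻¹) ^ ((((s + p.1 : ℕ) : ℤ)) - (a : ℤ)).natAbs * ρ ^ (p.1 + 1) := by
        rw [inv_pow, ← div_eq_inv_mul, one_le_div (by positivity)]
        exact pow_le_pow_of_le_one hρ0.le hρ1.le g3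
      have n0 : 0 ≤ ‖E x (((s + p.1 : ℕ) : ℤ), p.2) ((a : ℤ), b)‖ := norm_nonneg _
      calc ‖E x (((s + p.1 : ℕ) : ℤ), p.2) ((a : ℤ), b)‖ * ‖ent (aN E x N ^ j) (a, b) (s + q.1, q.2)‖
          ≤ ‖E x (((s + p.1 : ℕ) : ℤ), p.2) ((a : ℤ), b)‖ * (K ^ j * ρ ^ (q.1 + 1)) := by
            refine mul_le_mul_of_nonneg_left (g1.trans ?_) n0
            exact mul_le_mul_of_nonneg_left g4 (by positivity)
        _ = (‖E x (((s + p.1 : ℕ) : ℤ), p.2) ((a : ℤ), b)‖ * (K ^ j * ρ ^ (q.1 + 1))) * 1 := by ring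
        _ ≤ (‖E x (((s + p.1 : ℕ) : ℤ), p.2) ((a : ℤ), b)‖ * (K ^ j * ρ ^ (q.1 + 1))) *
            ((ρ⁻¹) ^ ((((s + p.1 : ℕ) : ℤ)) - (a : ℤ)).natAbs * ρ ^ (p.1 + 1)) :=
            mul_le_mul_of_nonneg_left g5 (by positivity)
        _ = _ := by
            rw [pow_add ρ (p.1 + 1)]
            ring
    have hC : ∀ a ∈ Finset.range M, ∀ b : Fin k,
        ‖ent (aN E x N) (s + p.1, p.2) (s + a, b) * ent (aN E x N ^ j) (s + a, b) (s + q.1, q.2) -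
          ent (aN E ((α ^ (s : ℤ)) x) M) p (a, b) * ent (aN E ((α ^ (s : ℤ)) x) M ^ j) (a, b) q‖ ≤
        (‖E x ((s + p.1 : ℕ), p.2) (((s + a : ℕ) : ℤ), b)‖ *
          (ρ⁻¹) ^ ((((s + p.1 : ℕ) : ℤ)) - ((s + a : ℕ) : ℤ)).natAbs) *
          (K ^ j * ρ ^ ((p.1 + 1) + (q.1 + 1))) := by
      intro a ha b
      rw [Finset.mem_range] at ha
      rw [LC3_aN E x N (s + p.1, p.2) (s + a, b) hP (by show s + a < N; omega),
        LC3_aN E _ M p (a, b) hp ha, LC3_sh α k E hE x s]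
      have e1 : ((p.1 : ℤ) + (s : ℤ), p.2) = ((((s + p.1 : ℕ) : ℤ), p.2) : ℤ × Fin k) := by
        push_cast
        rw [add_comm]
      have e2 : ((a : ℤ) + (s : ℤ), b) = ((((s + a : ℕ) : ℤ), b) : ℤ × Fin k) := by
        push_cast
        rw [add_comm]
      show ‖E x (((s + p.1 : ℕ) : ℤ), p.2) (((s + a : ℕ) : ℤ), b) * _ -
        E x ((p.1 : ℤ) + (s : ℤ), p.2) ((a : ℤ) + (s : ℤ), b) * _‖ ≤ _
      rw [e1, e2, ← mul_sub, norm_mul]
      have g1 := ih (a, b) ha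
      have g3 : p.1 + 1 ≤ (a + 1) + ((((s + p.1 : ℕ) : ℤ)) - ((s + a : ℕ) : ℤ)).natAbs := by omega
      have g5 : ρ ^ (a + 1) ≤ (ρ⁻¹) ^ ((((s + p.1 : ℕ) : ℤ)) - ((s + a : ℕ) : ℤ)).natAbs * ρ ^ (p.1 + 1) := by
        rw [inv_pow, ← div_eq_inv_mul, le_div_iff₀ (by positivity), ← pow_add]
        exact pow_le_pow_of_le_one hρ0.le hρ1.le g3
      have n0 : 0 ≤ ‖E x (((s + p.1 : ℕ) : ℤ), p.2) (((s + a : ℕ) : ℤ), b)‖ := norm_nonneg _
      calc _ ≤ ‖E x (((s + p.1 : ℕ) : ℤ), p.2) (((s + a : ℕ) : ℤ), b)‖ *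
            (K ^ j * ρ ^ ((a + 1) + (q.1 + 1))) := mul_le_mul_of_nonneg_left g1 n0
        _ = ‖E x (((s + p.1 : ℕ) : ℤ), p.2) (((s + a : ℕ) : ℤ), b)‖ * (K ^ j * ρ ^ (q.1 + 1)) *
            ρ ^ (a + 1) := by
            rw [pow_add ρ (a + 1)]
            ring
        _ ≤ ‖E x (((s + p.1 : ℕ) : ℤ), p.2) (((s + a : ℕ) : ℤ), b)‖ * (K ^ j * ρ ^ (q.1 + 1)) *
            ((ρ⁻¹) ^ ((((s + p.1 : ℕ) : ℤ)) - ((s + a : ℕ) : ℤ)).natAbs * ρ ^ (p.1 + 1)) :=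
            mul_le_mul_of_nonneg_left g5 (by positivity)
        _ = _ := by
            rw [pow_add ρ (p.1 + 1)]
            ring
    have hsum : ∑ a ∈ Finset.range N, ∑ b : Fin k, ‖E x ((s + p.1 : ℕ), p.2) ((a : ℤ), b)‖ *
        (ρ⁻¹) ^ ((((s + p.1 : ℕ) : ℤ)) - (a : ℤ)).natAbs ≤ K := by
      have g1 := hrow x (((s + p.1 : ℕ) : ℤ), p.2)
        ((Finset.range N ×ˢ (Finset.univ : Finset (Fin k))).image (fun r => ((r.1 : ℤ), r.2)))
      rw [Finset.sum_image] at g1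
      · rw [Finset.sum_product] at g1
        exact g1
      · intro r _ r' _ h
        rw [Prod.mk.injEq] at h
        exact Prod.ext (by exact_mod_cast h.1) h.2
    rw [hN, Finset.sum_range_add] at hsum
    have hsub : ∀ a ∈ Finset.range M, ∑ b : Fin k,
          ent (aN E x N) (s + p.1, p.2) (s + a, b) * ent (aN E x N ^ j) (s + a, b) (s + q.1, q.2) -
        ∑ b : Fin k, ent (aN E ((α ^ (s : ℤ)) x) M) p (a, b) *
          ent (aN E ((α ^ (s : ℤ)) x) M ^ j) (a, b) q =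
        ∑ b : Fin k, (ent (aN E x N) (s + p.1, p.2) (s + a, b) *
          ent (aN E x N ^ j) (s + a, b) (s + q.1, q.2) -
          ent (aN E ((α ^ (s : ℤ)) x) M) p (a, b) * ent (aN E ((α ^ (s : ℤ)) x) M ^ j) (a, b) q) :=
      fun a _ => (Finset.sum_sub_distrib _ _).symm
    rw [Finset.sum_congr rfl hsub]
    calc _ ≤ ∑ a ∈ Finset.range s, ∑ b : Fin k, (‖E x ((s + p.1 : ℕ), p.2) ((a : ℤ), b)‖ *
          (ρ⁻¹) ^ ((((s + p.1 : ℕ) : ℤ)) - (a : ℤ)).natAbs) * (K ^ j * ρ ^ ((p.1 + 1) + (q.1 + 1))) +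
          ∑ a ∈ Finset.range M, ∑ b : Fin k, (‖E x ((s + p.1 : ℕ), p.2) (((s + a : ℕ) : ℤ), b)‖ *
          (ρ⁻¹) ^ ((((s + p.1 : ℕ) : ℤ)) - ((s + a : ℕ) : ℤ)).natAbs) *
          (K ^ j * ρ ^ ((p.1 + 1) + (q.1 + 1))) := by
          refine (norm_add_le _ _).trans (add_le_add ?_ ?_)
          · exact norm_sum_le_of_le _ fun a ha => norm_sum_le_of_le _ fun b _ => hB a ha b
          · exact norm_sum_le_of_le _ fun a ha => norm_sum_le_of_le _ fun b _ => hC a ha b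
      _ = (∑ a ∈ Finset.range s, ∑ b : Fin k, ‖E x ((s + p.1 : ℕ), p.2) ((a : ℤ), b)‖ *
          (ρ⁻¹) ^ ((((s + p.1 : ℕ) : ℤ)) - (a : ℤ)).natAbs +
          ∑ a ∈ Finset.range M, ∑ b : Fin k, ‖E x ((s + p.1 : ℕ), p.2) (((s + a : ℕ) : ℤ), b)‖ *
          (ρ⁻¹) ^ ((((s + p.1 : ℕ) : ℤ)) - ((s + a : ℕ) : ℤ)).natAbs) *
          (K ^ j * ρ ^ ((p.1 + 1) + (q.1 + 1))) := by
          simp only [← Finset.sum_mul, add_mul]
      _ ≤ K * (K ^ j * ρ ^ ((p.1 + 1) + (q.1 + 1))) :=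
          mul_le_mul_of_nonneg_right hsum (by positivity)
      _ = K ^ (j + 1) * ρ ^ ((p.1 + 1) + (q.1 + 1)) := by ring

end Pool.Agent.CZ
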