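import Pool.Agent.helper37.CZ.SpecD

set_option autoImplicit false

open scoped Matrix Topology ComplexConjugate
open Filter

namespace Pool.Agent.CZ

theorem VWE (h1 : FPM_stmt) (h2 : FSB_stmt) (h3 : KAD_stmt) (h4 : OR1_stmt) (h5 : OR2_stmt)
    (h6 : OR3_stmt) (h7 : KRA_stmt) : VWE_stmt := by
  intro X _ _ α A _ ι u c hcov Q Q' _ _ w h w' h' U K K' φ ψ V W e hL hL' hF hF' hU hV hW he
  have hVW := h1 X α A ι u c hcov K K' K V W _ _ hV hW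
  have hU' := h3 X α Q Q' w h w' h' U hU
  have key : ∀ (i l : Fin K) (n : ℤ) (x : X),
      ∑ j, ∑' m : ℤ, vcoef α w w' h' φ U ψ i j m x *
        vcoef α w' w h ψ (adjK U) φ j l (n - m) ((α ^ (-m)) x) = ecoef α w h φ i l n x := by
    intro i l n x
    obtain ⟨t, ht⟩ : ∃ t : Q → ℝ, ∀ q, IsLift (w q x) (t q) :=
      ⟨fun q => Complex.arg (w q x) / (2 * Real.pi), fun q => (h2 _ ((hL q).1.1 x)).1⟩
    obtain ⟨t', ht'⟩ : ∃ t' : Q' → ℝ, ∀ q', IsLift (w' q' x) (t' q') :=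
      ⟨fun q => Complex.arg (w' q x) / (2 * Real.pi), fun q => (h2 _ ((hL' q).1.1 x)).1⟩
    obtain ⟨o1, o2⟩ := h4 X α Q Q' w h w' h' U K K' φ ψ hL hL' hF hF' hU x t t' ht ht'
    obtain ⟨o3, -⟩ := h4 X α Q' Q w' h' w h (adjK U) K' K ψ φ hL' hL hF' hF hU' x t' t ht' ht
    obtain ⟨f1, -, f3, f4⟩ := h5 X α Q Q' w h w' h' U K φ hL hF hU x t t'
    obtain ⟨g1, g2, -, -⟩ := h5 X α Q' Q w' h' w h (adjK U) K' ψ hL' hF' hU' x t' t
    obtain ⟨-, -, r3, r4⟩ := h6 X α Q Q' w h w' h' U K φ hL hL' hF hU x t t' ht ht'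
    obtain ⟨s1, s2, -, -⟩ := h6 X α Q' Q w' h' w h (adjK U) K' ψ hL' hL hF' hU' x t' t ht' ht
    have hk := h7 (Q × ℤ) (Q' × ℤ) K K' (oa α h φ t x) (oa α h' ψ t' x)
      (fun p p' => U p.1 p'.1 x (t p.1 + p.2) (t' p'.1 + p'.2)) f1 g1 g2 f3 f4 s1 s2 r3 r4 i l n
    have e1 : ∀ j m, vcoef α w w' h' φ U ψ i j m x = ∑' p : Q × ℤ, ∑' p' : Q' × ℤ,
        oa α h φ t x i p 0 * U p.1 p'.1 x (t p.1 + p.2) (t' p'.1 + p'.2) * oa α h' ψ t' x j p' (-m) := by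
      intro j m
      have := o1 i j 0 m
      rw [zero_sub] at this
      exact this
    have e2 : ∀ j m, vcoef α w' w h ψ (adjK U) φ j l (n - m) ((α ^ (-m)) x) =
        ∑' p' : Q' × ℤ, ∑' p : Q × ℤ, oa α h' ψ t' x j p' (-m) *
          conj (U p.1 p'.1 x (t p.1 + p.2) (t' p'.1 + p'.2)) * oa α h φ t x l p (-m - (n - m)) :=
      fun j m => o3 j l (-m) (n - m)
    have e3 : ecoef α w h φ i l n x = ∑' p : Q × ℤ, oa α h φ t x i p 0 * oa α h φ t x l p (-n) := by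
      have := o2 i l 0 n
      rw [zero_sub] at this
      exact this
    rw [e3, ← hk]
    refine Finset.sum_congr rfl fun j _ => ?_
    refine tsum_congr fun m => ?_
    rw [e1, e2]
  ext i l
  obtain ⟨F, ⟨-, hF1⟩, hF2⟩ := hVW i l
  obtain ⟨G, ⟨-, hG1⟩, hG2⟩ := he i l
  have hFG : F = G := by
    funext n
    ext x
    rw [hF2, hG2]
    exact key i l n x
  rw [hF1, hG1, hFG]

end Pool.Agent.CZ
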